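import Pool.Agent.W2helper87.SR.Asym2

/-!
# The list edge-colouring conjecture for locally sparse graphs with few vertices of degree near `Δ`

A deterministic theorem. In the starting theorem `SparseLargeDegrees` the vertices of degree more than
`D - K √(D log n)` have to form a sparse part of the graph, with one large constant `K`, or more than
`D - ε √(n log n)`; here only those of degree more than `D - ε √(D log n)` are exceptional, for an
arbitrary `ε > 0`, if the graph has degrees between `C log n` and `n ^ κ` and is locally sparse.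
-/

set_option autoImplicit false

namespace Pool.Agent.Results.MP_2f9829_co.LocallySparseGraphs

/-- The edges of `G` can be properly coloured from all lists of at least `k` colours. -/
def EdgeChoosable {V : Type} (G : SimpleGraph V) (k : ℕ) : Prop :=
  ∀ L : G.edgeSet → Finset ℕ, (∀ e, k ≤ (L e).card) →
    ∃ f : G.edgeSet → ℕ, (∀ e, f e ∈ L e) ∧ ∀ e e', G.lineGraph.Adj e e' → f e ≠ f e'

/-- For every `ε > 0` there is `κ > 0`, and for every `A` there are `C` and `n₀`, such that the
following holds for every graph `G` on `n ≥ n₀` vertices and every `D` with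
`C log n ≤ D ≤ n ^ κ`. Suppose all degrees are at most `D`, at most `n ^ (1 - κ)` vertices have degree
more than `D - ε √(D log n)`, and every set `X` of at most `9 n ^ (1 - κ)` vertices spans at most
`A |X| / 2` edges (at most `A |X|` ordered pairs of adjacent vertices). Then `G` is edge-colourable
from all lists of `D` colours, and if `D` is the maximum degree, the list edge-colouring conjecture
holds for `G`: for every `k`, the edges can be properly coloured with `k` colours if and only if they
can be properly coloured from all lists of at least `k` colours. -/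
theorem result : ∀ ε : ℝ, 0 < ε → ∃ κ : ℝ, 0 < κ ∧ ∀ A : ℝ, ∃ C : ℝ, ∃ n₀ : ℕ, ∀ n : ℕ, n₀ ≤ n →
    ∀ (G : SimpleGraph (Fin n)) (D : ℕ),
      (∀ v, (G.neighborSet v).ncard ≤ D) → C * Real.log n ≤ D → (D : ℝ) ≤ (n : ℝ) ^ κ →
      (({v : Fin n | (D : ℝ) - ε * Real.sqrt (D * Real.log n) < (G.neighborSet v).ncard}.ncard : ℝ) ≤
        (n : ℝ) ^ (1 - κ)) →
      (∀ X : Finset (Fin n), (X.card : ℝ) ≤ 9 * (n : ℝ) ^ (1 - κ) →
        ({e : Fin n × Fin n | e.1 ∈ X ∧ e.2 ∈ X ∧ G.Adj e.1 e.2}.ncard : ℝ) ≤ A * X.card) →
      EdgeChoosable G D ∧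
      ((∃ v, (G.neighborSet v).ncard = D) → ∀ k : ℕ, G.lineGraph.Colorable k ↔ EdgeChoosable G k) := by
  classical
  intro ε hε
  obtain ⟨κ, hκ0, hκ2, -, h⟩ := Pool.Agent.W2helper87.SR.det_asym ε hε
  refine ⟨κ, hκ0, fun A => ?_⟩
  obtain ⟨C, hC, n₀, h⟩ := h (max A 1) (lt_of_lt_of_le zero_lt_one (le_max_right _ _))
  refine ⟨C, max n₀ 1, fun n hn G D hdeg hCD hDn hfew hsp => ?_⟩
  have hn1 : 0 < n := le_trans (le_max_right n₀ 1) hn
  have hLC : ∀ L : Fin n → Fin n → Finset ℕ, (∀ a b, L a b = L b a) →
      (∀ a b, G.Adj a b → D ≤ (L a b).card) → Pool.Agent.H162R2.Sparse.LC G L := by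
    refine h n (le_trans (le_max_left _ _) hn) G D
      (fun v => by rw [Pool.Agent.H162R2.Sparse.dg_eq_ncard]; exact hdeg v) hCD hDn ?_ ?_
    · refine le_trans (le_of_eq ?_) hfew
      rw [Set.ncard_eq_toFinset_card']
      congr 2
      ext v
      simp only [Finset.mem_filter, Finset.mem_univ, true_and, Set.mem_toFinset, Set.mem_ofPred_eq,
        Pool.Agent.H162R2.Sparse.dg_eq_ncard]
    · intro X hX
      have h1 := hsp X hX
      have h2 : Pool.Agent.W2helper87.SR.e2 G X ≤ A * X.card := by
        refine le_trans (le_of_eq ?_) h1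
        unfold Pool.Agent.W2helper87.SR.e2
        rw [Set.ncard_eq_toFinset_card']
        congr 2
        ext e
        simp only [Finset.mem_filter, Pool.Agent.H162R2.Sparse.mem_pr, Set.mem_toFinset,
          Set.mem_ofPred_eq]
        tauto
      refine h2.trans ?_
      have h3 : A ≤ max A 1 := le_max_left _ _
      gcongr
  have hch := Pool.Agent.H162R2.Sparse.choosable_of_LC G D hLC
  refine ⟨hch, ?_⟩
  rintro ⟨v, hv⟩
  refine Pool.Agent.H162R2.AG.lecc_of_LC n hn1 G ?_
  intro D' hD' L hs hL
  have hDD : D ≤ D' := by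
    have := hD' v
    rw [Pool.Agent.H162R2.Sparse.dg_eq_ncard, hv] at this
    exact this
  exact hLC L hs (fun a b hab => hDD.trans (hL a b hab))

end Pool.Agent.Results.MP_2f9829_co.LocallySparseGraphs
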