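import Pool.Agent.W2helper87.TC.Jum2

/-!
# The list edge-colouring conjecture for pseudo-random and for almost dense graphs with few vertices
of degree close to the maximum

Two deterministic theorems. Let `D` be the maximum degree of a graph with `n` vertices. In the first
part `D ≥ 2 (log n) ^ 3`, the numbers of edges between any two sets of vertices are at most a
constant times those expected in a random graph up to an error term, and at most
`c n √(log n / D)` vertices have a degree more than `D - ε √(D log n)`. In the second part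
`D ≥ n ^ (1 - κ)`, the graph is arbitrary otherwise, and at most `c √(D log n)` vertices have a
degree more than `D - ε √(D log n)`. In both cases the list chromatic index is `D`.

At each exceptional vertex (of large degree, or at which a random splitting fails) only the edges to
a random subset of its neighbours are coloured first, with colours chosen so that no remaining list
is hit too often; the other edges at the exceptional vertices are coloured together with the rest of
the graph, by a form of Galvin's theorem in which these vertices have special groups of labels.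
-/

set_option autoImplicit false

namespace Pool.Agent.Results.MP_2f9829_co.PseudorandomGraphs

/-- The edges of `G` can be properly coloured from all lists of at least `k` colours. -/
def EdgeChoosable {V : Type} (G : SimpleGraph V) (k : ℕ) : Prop :=
  ∀ L : G.edgeSet → Finset ℕ, (∀ e, k ≤ (L e).card) →
    ∃ f : G.edgeSet → ℕ, (∀ e, f e ∈ L e) ∧ ∀ e e', G.lineGraph.Adj e e' → f e ≠ f e'

/-- The number of vertices of degree more than `x`. -/
noncomputable def above {n : ℕ} (G : SimpleGraph (Fin n)) (x : ℝ) : ℕ :=
  {v : Fin n | x < (G.neighborSet v).ncard}.ncard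

/-- The number of pairs `(x, y)` of adjacent vertices with `x ∈ X` and `y ∈ Y`. -/
noncomputable def between {n : ℕ} (G : SimpleGraph (Fin n)) (X Y : Finset (Fin n)) : ℕ :=
  {e : Fin n × Fin n | e.1 ∈ X ∧ e.2 ∈ Y ∧ G.Adj e.1 e.2}.ncard

theorem dg_eq {n : ℕ} (G : SimpleGraph (Fin n)) (v : Fin n) :
    (G.neighborSet v).ncard = Pool.Agent.H162R2.Sparse.dg G v := by
  rw [Pool.Agent.H162R2.Sparse.dg_eq_ncard]

open Classical in
theorem above_eq {n : ℕ} (G : SimpleGraph (Fin n)) (x : ℝ) :
    above G x = (Finset.univ.filter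
      (fun v => x < (Pool.Agent.H162R2.Sparse.dg G v : ℝ))).card := by
  unfold above
  rw [Set.ncard_eq_toFinset_card']
  congr 1
  ext v
  simp only [Finset.mem_filter, Finset.mem_univ, true_and, Set.mem_toFinset, Set.mem_ofPred_eq,
    dg_eq]

theorem between_eq {n : ℕ} (G : SimpleGraph (Fin n)) (X Y : Finset (Fin n)) :
    (between G X Y : ℝ) = Pool.Agent.W2helper87.TC.eXY G X Y := by
  classical
  unfold between Pool.Agent.W2helper87.TC.eXY
  have h1 : {e : Fin n × Fin n | e.1 ∈ X ∧ e.2 ∈ Y ∧ G.Adj e.1 e.2} =
      ((X.biUnion (fun v => ((Pool.Agent.H162R2.Sparse.nb G v).filter (fun w => w ∈ Y)).image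
        (fun w => (v, w))) : Finset (Fin n × Fin n)) : Set (Fin n × Fin n)) := by
    ext ⟨a, b⟩
    simp only [Set.mem_ofPred_eq, Finset.coe_biUnion, Finset.coe_image, Set.mem_iUnion,
      Set.mem_image, Finset.mem_coe, Finset.mem_filter, Pool.Agent.H162R2.Sparse.mem_nb]
    constructor
    · rintro ⟨ha, hb, hab⟩
      exact ⟨a, ha, b, ⟨hab, hb⟩, rfl⟩
    · rintro ⟨v, hv, w, ⟨hvw, hw⟩, h⟩
      rw [Prod.mk.injEq] at h
      obtain ⟨rfl, rfl⟩ := h
      exact ⟨hv, hw, hvw⟩
  rw [h1, Set.ncard_coe_finset, Finset.card_biUnion]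
  · push_cast
    apply Finset.sum_congr rfl
    intro v _
    rw [Finset.card_image_of_injective]
    intro a b h
    exact (Prod.mk.injEq _ _ _ _ ▸ h).2
  · intro v _ w _ hvw
    rw [Function.onFun, Finset.disjoint_left]
    intro e he he'
    rw [Finset.mem_image] at he he'
    obtain ⟨a, _, rfl⟩ := he
    obtain ⟨b, _, h⟩ := he'
    exact hvw (Prod.mk.injEq _ _ _ _ ▸ h).1.symm

/-- (1) For all `ε > 0` and `K` there is a `c > 0` such that the following holds for all large `n`
and every graph `G` on `n` vertices with all degrees at most `D`, where `2 (log n) ^ 3 ≤ D ≤ n`. If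
there are at most `(K D / n) |X| |Y| + c √(D log n) √(|X| |Y|)` edges between any two sets `X` and
`Y` of vertices, and at most `c n √(log n / D)` vertices have degree more than `D - ε √(D log n)`,
then all edges can be coloured from all lists of `D` colours. If `D` is the maximum degree, then
the list edge-colouring conjecture holds for `G`: for every `k`, the edges can be properly coloured
with `k` colours if and only if they can be properly coloured from all lists of at least `k`
colours.

(2) For every `ε > 0` there are `c > 0` and `κ > 0` such that the same conclusions hold for all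
large `n` and every graph on `n` vertices with all degrees at most `D`, `n ^ (1 - κ) ≤ D ≤ n`, in
which at most `c √(D log n)` vertices have degree more than `D - ε √(D log n)`. -/
theorem result :
    (∀ ε K : ℝ, 0 < ε → ∃ c : ℝ, 0 < c ∧ ∃ N : ℕ, ∀ n : ℕ, N ≤ n →
      ∀ (G : SimpleGraph (Fin n)) (D : ℕ), (∀ v, (G.neighborSet v).ncard ≤ D) → D ≤ n →
        2 * Real.log n ^ 3 ≤ D →
        (∀ X Y : Finset (Fin n), (between G X Y : ℝ) ≤ K * D / n * X.card * Y.card +
          c * Real.sqrt (D * Real.log n) * Real.sqrt (X.card * Y.card)) →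
        (above G (D - ε * Real.sqrt (D * Real.log n)) : ℝ) ≤ c * n * Real.sqrt (Real.log n / D) →
        EdgeChoosable G D ∧ ((∃ v, (G.neighborSet v).ncard = D) →
          ∀ k : ℕ, G.lineGraph.Colorable k ↔ EdgeChoosable G k)) ∧
    ∀ ε : ℝ, 0 < ε → ∃ c κ : ℝ, 0 < c ∧ 0 < κ ∧ ∃ N : ℕ, ∀ n : ℕ, N ≤ n →
      ∀ (G : SimpleGraph (Fin n)) (D : ℕ), (∀ v, (G.neighborSet v).ncard ≤ D) → D ≤ n →
        (n : ℝ) ^ (1 - κ) ≤ D →
        (above G (D - ε * Real.sqrt (D * Real.log n)) : ℝ) ≤ c * Real.sqrt (D * Real.log n) →
        EdgeChoosable G D ∧ ((∃ v, (G.neighborSet v).ncard = D) →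
          ∀ k : ℕ, G.lineGraph.Colorable k ↔ EdgeChoosable G k) := by
  classical
  have hconc : ∀ n : ℕ, 1 ≤ n → ∀ (G : SimpleGraph (Fin n)) (D : ℕ),
      (∀ L : Fin n → Fin n → Finset ℕ, (∀ a b, L a b = L b a) →
        (∀ a b, G.Adj a b → D ≤ (L a b).card) → Pool.Agent.H162R2.Sparse.LC G L) →
      EdgeChoosable G D ∧ ((∃ v, (G.neighborSet v).ncard = D) →
        ∀ k : ℕ, G.lineGraph.Colorable k ↔ EdgeChoosable G k) := by
    intro n hn1 G D hLC
    refine ⟨Pool.Agent.H162R2.Sparse.choosable_of_LC G D hLC, ?_⟩
    rintro ⟨v, hv⟩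
    refine Pool.Agent.H162R2.AG.lecc_of_LC n hn1 G ?_
    intro D' hD' L hs hL
    have hDD : D ≤ D' := by
      have := hD' v
      rw [← dg_eq, hv] at this
      exact this
    exact hLC L hs (fun a b hab => hDD.trans (hL a b hab))
  have hmono : ∀ (n : ℕ) (G : SimpleGraph (Fin n)) (D : ℕ) (ε ε' : ℝ), ε' ≤ ε →
      ((Finset.univ.filter (fun v => (D : ℝ) - ε' * Real.sqrt (D * Real.log n) <
        Pool.Agent.H162R2.Sparse.dg G v)).card : ℝ) ≤
      (above G (D - ε * Real.sqrt (D * Real.log n)) : ℝ) := by
    intro n G D ε ε' hε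
    rw [above_eq]
    have h1 : (Finset.univ.filter (fun v => (D : ℝ) - ε' * Real.sqrt (D * Real.log n) <
        Pool.Agent.H162R2.Sparse.dg G v)) ⊆
        (Finset.univ.filter (fun v => (D : ℝ) - ε * Real.sqrt (D * Real.log n) <
        Pool.Agent.H162R2.Sparse.dg G v)) := by
      intro v hv
      rw [Finset.mem_filter] at hv ⊢
      refine ⟨hv.1, lt_of_le_of_lt ?_ hv.2⟩
      have : ε' * Real.sqrt (D * Real.log n) ≤ ε * Real.sqrt (D * Real.log n) := by gcongr
      linarith
    exact_mod_cast Finset.card_le_card h1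
  constructor
  · intro ε K hε
    obtain ⟨c, hc0, -, N, h⟩ := Pool.Agent.W2helper87.TC.jumb (min ε 1) (max K 1)
      (lt_min hε one_pos) (min_le_right _ _) (le_max_right _ _)
    refine ⟨c, hc0, max N 1, fun n hn G D hdeg hDn hDl hj hfew => ?_⟩
    apply hconc n (le_trans (le_max_right _ _) hn)
    refine h n (le_trans (le_max_left _ _) hn) G D hDn hDl ?_
      ((hmono n G D ε _ (min_le_left _ _)).trans hfew) D le_rfl ?_ G (fun _ _ h => h)
      (fun v => by rw [← dg_eq]; exact hdeg v)
    · intro X Y
      rw [← between_eq]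
      refine (hj X Y).trans ?_
      have h1 : K ≤ max K 1 := le_max_left _ _
      gcongr
    · have : 0 ≤ c * Real.sqrt (D * Real.log n) := by positivity
      linarith
  · intro ε hε
    obtain ⟨c, κ, hc0, -, hκ0, -, N, h⟩ := Pool.Agent.W2helper87.TC.dense2 (min ε 1)
      (lt_min hε one_pos) (min_le_right _ _)
    refine ⟨c, κ, hc0, hκ0, max N 1, fun n hn G D hdeg hDn hDκ hfew => ?_⟩
    apply hconc n (le_trans (le_max_right _ _) hn)
    refine h n (le_trans (le_max_left _ _) hn) G D hDn hDκ
      ((hmono n G D ε _ (min_le_left _ _)).trans hfew) D le_rfl ?_ G (fun _ _ h => h)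
      (fun v => by rw [← dg_eq]; exact hdeg v)
    have : 0 ≤ c * Real.sqrt (D * Real.log n) := by positivity
    linarith

end Pool.Agent.Results.MP_2f9829_co.PseudorandomGraphs
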