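import Pool.Agent.W2helper87.RP.ProcF

/-!
# The list edge-colouring conjecture for the random graph process

Let the edges of a dense graph `B` with `n` vertices (for example, of the complete graph) be added
one by one in a random order. With high probability the list edge-colouring conjecture holds for
ALL graphs of this process simultaneously, from the graph without edges up to the graph with
`(1 - η) e(B)` edges. In particular it holds for almost all subgraphs of `B` with exactly `m` edges,
for each such `m`.

The results on the random graphs `G(n, p)` (starting file `RandomGraphs`, hand-in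
`RandomGraphsAllDensities`) have failure probabilities `n ^ (-δ)` with a small `δ`; there are more
than `n` stages of the process, and the conjecture is not monotone, so they give neither the
statement on the process nor the one on a given number of edges. The new steps, with failure
probabilities `n ^ (-6)` for random subgraphs of each density `p`:

* average degree at least `C log n`: a threshold `k` such that the largest degree exceeds
  `k + 2 ε √(D log n)`, by the independence of the edges from a set of `n ^ 0.97` vertices to the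
  other vertices, while the moments of order `46` show that fewer than `n ^ 0.3` vertices have degree
  at least `k`. If the degrees are at least `(log n) ^ 4`, random graphs are pseudo-random in the sense
  of the hand-in `PseudorandomGraphs`, by a union bound over all pairs of sets of vertices, and the
  deterministic theorem of that hand-in applies. In sparser graphs all small sets of vertices span
  few edges, and the theorem of the hand-in `LocallySparseGraphs` applies;
* average degree between `n ^ (-β)` and `C log n`: a threshold `k`, at least a large constant, with a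
  vertex of degree at least `k - 7` by a similar argument, while moments of high order show that at
  most `n ^ (1 - κ)` vertices have degree more than `(1 - g) k` (more than `k / 4`, if
  `k ≤ log n / 100`);
* fewer edges: by monotonicity all these graphs are forests.

The models are compared by the fact that the most likely number of edges of the random subgraph of
density `m / e(B)` is `m`.
-/

set_option autoImplicit false

namespace Pool.Agent.Results.MP_2f9829_co.RandomGraphProcess

/-- The list edge-colouring conjecture for the graph `G`: for every `k`, the edges can be properly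
coloured with `k` colours if and only if they can be properly coloured from all lists of at least
`k` colours. -/
def ListEdge {V : Type} (G : SimpleGraph V) : Prop :=
  ∀ k : ℕ, G.lineGraph.Colorable k ↔
    ∀ L : G.edgeSet → Finset ℕ, (∀ e, k ≤ (L e).card) →
      ∃ f : G.edgeSet → ℕ, (∀ e, f e ∈ L e) ∧ ∀ e e', G.lineGraph.Adj e e' → f e ≠ f e'

/-- An ordering of the `N` edges of `B` is a bijection `σ` with `{0, …, N - 1}`. The graph formed
by the first `m` edges: -/
def stage {n N : ℕ} (B : SimpleGraph (Fin n)) (σ : B.edgeSet ≃ Fin N) (m : ℕ) :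
    SimpleGraph (Fin n) :=
  SimpleGraph.fromEdgeSet {e | ∃ h : e ∈ B.edgeSet, (σ ⟨e, h⟩ : ℕ) < m}

/-- For all `η > 0` and `γ > 0` there are `C` and `δ > 0` such that for all large `n` and all graphs
`B` on `n` vertices, with `N` edges:

(1) if `N ≥ γ n ^ 2`, then for all but a fraction `n ^ (-δ)` of the `N!` orderings of the edges of
`B`, the list edge-colouring conjecture holds for the graph formed by the first `m` edges, for all
`m ≤ (1 - η) N`;

(2) if `B` has a vertex of degree at least `γ n`, then for all but a fraction `1 / n ^ 2` of the `N!`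
orderings of the edges of `B`, it holds for the graph formed by the first `m` edges, for all `m` with
`C n log n ≤ m ≤ (1 - η) N`. -/
theorem result : ∀ η γ : ℝ, 0 < η → 0 < γ → ∃ C δ : ℝ, 0 < C ∧ 0 < δ ∧ ∃ N₀ : ℕ, ∀ n : ℕ,
    N₀ ≤ n → ∀ (B : SimpleGraph (Fin n)) (N : ℕ),
      (γ * (n : ℝ) ^ 2 ≤ N →
        ({σ : B.edgeSet ≃ Fin N | ∃ m : ℕ, m ≤ (1 - η) * N ∧
          ¬ ListEdge (stage B σ m)}.ncard : ℝ) ≤ N.factorial * (n : ℝ) ^ (-δ)) ∧
      ((∃ v, γ * n ≤ (B.neighborSet v).ncard) →
        ({σ : B.edgeSet ≃ Fin N | ∃ m : ℕ, C * n * Real.log n ≤ m ∧ m ≤ (1 - η) * N ∧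
          ¬ ListEdge (stage B σ m)}.ncard : ℝ) ≤ N.factorial / (n : ℝ) ^ 2) := by
  intro η γ hη hγ
  obtain ⟨C, hC, N₁, h₁⟩ := Pool.Agent.W2helper87.RP.process_mid (min η 1) (min γ 1)
    (lt_min hη one_pos) (min_le_right _ _) (lt_min hγ one_pos) (min_le_right _ _)
  obtain ⟨δ, hδ, K, N₂, h₂⟩ := Pool.Agent.W2helper87.RP.process_full (min η 1) (min γ 1)
    (lt_min hη one_pos) (min_le_right _ _) (lt_min hγ one_pos) (min_le_right _ _)
  refine ⟨C, δ, hC, hδ, max (max N₁ N₂) 1, fun n hn B N => ?_⟩
  have hnN₁ : N₁ ≤ n := le_trans (le_max_left _ _) (le_trans (le_max_left _ _) hn)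
  have hnN₂ : N₂ ≤ n := le_trans (le_max_right _ _) (le_trans (le_max_left _ _) hn)
  have hn1 : 0 < n := le_trans (le_max_right _ _) hn
  have hGd : ∀ G : SimpleGraph (Fin n), Pool.Agent.W2helper87.SR.Gd G → ListEdge G := by
    intro G hG
    refine Pool.Agent.H162R2.AG.lecc_of_LC n hn1 G ?_
    intro D hD L hs hL
    have : Nonempty (Fin n) := ⟨⟨0, hn1⟩⟩
    obtain ⟨v, hv⟩ := Finite.exists_max
      (fun v : Fin n => Pool.Agent.H162R2.Sparse.dg G v)
    exact hG _ hv ⟨v, rfl⟩ L hs (fun a b hab => (hD v).trans (hL a b hab))
  have hηη : (1 - η) * (N : ℝ) ≤ (1 - min η 1) * N := by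
    have : min η 1 ≤ η := min_le_left _ _
    gcongr
  constructor
  · intro hN
    have h3 := h₂ n hnN₂ B N (by
      refine le_trans ?_ hN
      gcongr
      exact min_le_left _ _)
    refine le_trans ?_ h3
    have h4 : {σ : B.edgeSet ≃ Fin N | ∃ m : ℕ, m ≤ (1 - η) * N ∧ ¬ ListEdge (stage B σ m)} ⊆
        {σ : B.edgeSet ≃ Fin N | ∃ m : ℕ, (m : ℝ) ≤ (1 - min η 1) * N ∧
          ¬ (Pool.Agent.W2helper87.SR.Gd (Pool.Agent.W2helper87.RP.stage B σ m) ∧
            Pool.Agent.W2helper87.TC.GdK K (Pool.Agent.W2helper87.RP.stage B σ m))} := by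
      rintro σ ⟨m, hm1, hm2⟩
      exact ⟨m, hm1.trans hηη, fun hG => hm2 (hGd _ hG.1)⟩
    exact_mod_cast Set.ncard_le_ncard h4 (Set.toFinite _)
  · rintro ⟨v, hv⟩
    have h3 := h₁ n hnN₁ B ⟨v, by
      rw [← Pool.Agent.H162R2.Sparse.dg_eq_ncard] at hv
      refine le_trans ?_ hv
      gcongr
      exact min_le_left _ _⟩ N
    refine le_trans ?_ h3
    have h4 : {σ : B.edgeSet ≃ Fin N | ∃ m : ℕ, C * n * Real.log n ≤ m ∧ m ≤ (1 - η) * N ∧
          ¬ ListEdge (stage B σ m)} ⊆
        {σ : B.edgeSet ≃ Fin N | ∃ m : ℕ, (C * n * Real.log n ≤ m ∧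
          (m : ℝ) ≤ (1 - min η 1) * N) ∧
          ¬ (Pool.Agent.W2helper87.SR.Gd (Pool.Agent.W2helper87.RP.stage B σ m) ∧
            Pool.Agent.W2helper87.SR.GdTot (Pool.Agent.W2helper87.RP.stage B σ m))} := by
      rintro σ ⟨m, hm1, hm2, hm3⟩
      exact ⟨m, ⟨hm1, hm2.trans hηη⟩, fun hG => hm3 (hGd _ hG.1)⟩
    exact_mod_cast Set.ncard_le_ncard h4 (Set.toFinite _)

end Pool.Agent.Results.MP_2f9829_co.RandomGraphProcess
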