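import Pool.Agent.W2helper87.LD.All

/-!
# The list edge-colouring conjecture for random graphs of all densities up to `1 - η`

The list edge-colouring conjecture holds with high probability for the random graph `G(n, p)`,
uniformly in all `p ≤ 1 - η`. This is proved in the following generality: for all random graphs with
independent edges and edge probabilities at most `n ^ (c - 1)`, with no other condition on these
probabilities, and for the random subgraphs of density `p ≤ 1 - η` of all graphs `B` with a vertex
of degree at least `n ^ (1 - δ)`.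

The starting result `RandomGraphs` needs linearly many uncertain edges at every vertex whose
expected degree is close to the maximum, so `p` is bounded below.

* Edge probabilities at most `n ^ (c - 1)`: all exceptional vertices of a random splitting of the
  vertices and colours lie in a set near which the graph is locally sparse, and all edges at this
  set are coloured first, with the theorem on graphs of small maximum average degree. The colours
  are split in proportion to the degrees, and Galvin's theorem is applied to the bipartite graphs of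
  the splitting. If the maximum expected degree is below `C log n`, comparison of the probabilities
  of neighbouring degrees and second moments show that few vertices have a degree close to the
  maximum; if the maximum degree is bounded, the graph has no cycles.
* `n ^ (c - 1) ≤ p ≤ 1 - η`: the graph near the exceptional vertices is not sparse. At each
  exceptional vertex only the edges to a random subset of its neighbours are coloured first, with
  colours chosen so that no remaining list is hit too often; the other edges at the exceptional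
  vertices are coloured with the rest of the graph, by a form of Galvin's theorem in which these
  vertices have special groups of labels. That only `n ^ (1 / 4)` vertices have a degree within
  `ε √(D log n)` of the maximum `D` follows from a comparison of binomial tails and the
  independence of the edges from a small set of vertices to the other vertices.

The theorem on graphs of small maximum average degree (`Sparse.main_edge`), the bound
`D + O(√(D log n))` for the list chromatic index (`T_S`) and the form of Galvin's theorem used here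
are those of the project of helper162 in the starting repository.
-/

set_option autoImplicit false

namespace Pool.Agent.Results.MP_2f9829_co.RandomGraphsAllDensities

/-- Edge probabilities: `q e` is the probability that the pair `e` is an edge; all pairs are
independent. `prob q P` is the probability that the random graph has the property `P`. -/
noncomputable def prob {n : ℕ} (q : Sym2 (Fin n) → ℝ) (P : SimpleGraph (Fin n) → Prop) : ℝ := by
  classical exact ∑ G : SimpleGraph (Fin n), if P G then
    (∏ e : {e : Sym2 (Fin n) // ¬ e.IsDiag}, if e.1 ∈ G.edgeSet then q e.1 else 1 - q e.1) else 0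

/-- The list edge-colouring conjecture for the graph `G`: for every `k`, the edges can be properly
coloured with `k` colours if and only if they can be properly coloured from all lists of at least
`k` colours. -/
def ListEdge {V : Type} (G : SimpleGraph V) : Prop :=
  ∀ k : ℕ, G.lineGraph.Colorable k ↔
    ∀ L : G.edgeSet → Finset ℕ, (∀ e, k ≤ (L e).card) →
      ∃ f : G.edgeSet → ℕ, (∀ e, f e ∈ L e) ∧ ∀ e e', G.lineGraph.Adj e e' → f e ≠ f e'

/-- (1) There is a `c > 0` such that for all large `n` and every random graph on `n` vertices with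
independent edges and with all edge probabilities at most `n ^ (c - 1)`, the list edge-colouring
conjecture holds with probability at least `1 - n ^ (-c)`.

(2) For every `η > 0` there is a `δ > 0` such that for all large `n` and all `p ≤ 1 - η`, the list
edge-colouring conjecture holds for the random graph `G(n, p)` with probability at least
`1 - n ^ (-δ)`,

(3) and also for the random subgraph of an arbitrary graph `B` on `n` vertices in which every edge
of `B` is kept with probability `p`, if the maximum degree of `B` is at least `n ^ (1 - δ)`. -/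
theorem result :
    (∃ c : ℝ, 0 < c ∧ ∃ N : ℕ, ∀ n : ℕ, N ≤ n → ∀ q : Sym2 (Fin n) → ℝ,
      (∀ e, 0 ≤ q e ∧ q e ≤ (n : ℝ) ^ (c - 1)) →
      1 - (n : ℝ) ^ (-c) ≤ prob q (fun G => ListEdge G)) ∧
    ∀ η : ℝ, 0 < η → ∃ δ : ℝ, 0 < δ ∧ ∃ N : ℕ, ∀ n : ℕ, N ≤ n → ∀ p : ℝ, 0 ≤ p → p ≤ 1 - η →
      1 - (n : ℝ) ^ (-δ) ≤ prob (fun _ : Sym2 (Fin n) => p) (fun G => ListEdge G) ∧
      ∀ B : SimpleGraph (Fin n), (∃ v, (n : ℝ) ^ (1 - δ) ≤ (B.neighborSet v).ncard) →
        1 - (n : ℝ) ^ (-δ) ≤ prob (B.edgeSet.indicator fun _ => p) (fun G => ListEdge G) := by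
  classical
  obtain ⟨c, hc, hc1, N₁, hsparse⟩ := Pool.Agent.W2helper87.LD.sparse_full
  -- from the statement on lists to the conjecture
  have hGd : ∀ n : ℕ, 0 < n → ∀ G : SimpleGraph (Fin n),
      Pool.Agent.W2helper87.SR.Gd G → ListEdge G := by
    intro n hn1 G hG
    refine Pool.Agent.H162R2.AG.lecc_of_LC n hn1 G ?_
    intro D hD L hs hL
    have : Nonempty (Fin n) := ⟨⟨0, hn1⟩⟩
    obtain ⟨v, hv⟩ := Finite.exists_max
      (fun v : Fin n => Pool.Agent.H162R2.Sparse.dg G v)
    exact hG _ hv ⟨v, rfl⟩ L hs (fun a b hab => (hD v).trans (hL a b hab))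
  have hpb : ∀ n : ℕ, 0 < n → ∀ q : Sym2 (Fin n) → ℝ, (∀ e, 0 ≤ q e ∧ q e ≤ 1) →
      Pool.Agent.W2helper87.SR.pb q Pool.Agent.W2helper87.SR.Gd ≤
        prob q (fun G => ListEdge G) := by
    intro n hn1 q hq
    unfold Pool.Agent.W2helper87.SR.pb prob
    apply Finset.sum_le_sum
    intro G _
    by_cases hG : Pool.Agent.W2helper87.SR.Gd G
    · have hL : ListEdge G := hGd n hn1 G hG
      simp only [if_pos hG, if_pos hL, le_refl]
    · rw [if_neg hG]
      split_ifs
      · apply Finset.prod_nonneg
        intro e _
        split_ifs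
        · exact (hq e.1).1
        · linarith [(hq e.1).2]
      · exact le_rfl
  have h1 : ∀ n : ℕ, max N₁ 1 ≤ n → ∀ q : Sym2 (Fin n) → ℝ,
      (∀ e, 0 ≤ q e ∧ q e ≤ (n : ℝ) ^ (c - 1)) →
      1 - (n : ℝ) ^ (-c) ≤ prob q (fun G => ListEdge G) := by
    intro n hn q hq
    have hn1 : 1 ≤ n := le_trans (le_max_right _ _) hn
    have hnr : (1 : ℝ) ≤ n := by exact_mod_cast hn1
    have hpow : (n : ℝ) ^ (c - 1) ≤ 1 := Real.rpow_le_one_of_one_le_of_nonpos hnr (by linarith)
    exact (hsparse n (le_trans (le_max_left _ _) hn) q hq).trans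
      (hpb n hn1 q fun e => ⟨(hq e).1, (hq e).2.trans hpow⟩)
  refine ⟨⟨c, hc, max N₁ 1, h1⟩, fun η' hη' => ?_⟩
  obtain ⟨η, hη⟩ : ∃ η : ℝ, η = min η' 1 := ⟨_, rfl⟩
  have hη0 : 0 < η := by rw [hη]; exact lt_min hη' one_pos
  have hη1 : η ≤ 1 := by rw [hη]; exact min_le_right _ _
  have hηη : η ≤ η' := by rw [hη]; exact min_le_left _ _
  obtain ⟨c₁, hc₁0, hc₁1, N₂, hdense⟩ := Pool.Agent.W2helper87.FR.dense_random c η hc hη0 hη1
  obtain ⟨δ, hδ⟩ : ∃ δ : ℝ, δ = min c c₁ := ⟨_, rfl⟩
  have hδ0 : 0 < δ := by rw [hδ]; exact lt_min hc hc₁0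
  have hδc : δ ≤ c := by rw [hδ]; exact min_le_left _ _
  have hδc₁ : δ ≤ c₁ := by rw [hδ]; exact min_le_right _ _
  obtain ⟨N₃, hN₃⟩ := Filter.eventually_atTop.1
    ((Pool.Agent.W2helper87.FR.ev_const 2 δ hδ0).and (Filter.eventually_ge_atTop 2))
  refine ⟨δ, hδ0, max (max N₁ 1) (max N₂ N₃), fun n hn p hp0 hpη => ?_⟩
  obtain ⟨hn2δ, hn2⟩ := hN₃ n (le_trans (le_max_right _ _) (le_trans (le_max_right _ _) hn))
  have hn1 : 0 < n := by omega
  have hnr : (2 : ℝ) ≤ n := by exact_mod_cast hn2
  have hnr1 : (1 : ℝ) ≤ n := by linarith
  have hn0 : (0 : ℝ) < n := by linarith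
  have hle : ∀ x : ℝ, δ ≤ x → (n : ℝ) ^ (-x) ≤ (n : ℝ) ^ (-δ) := by
    intro x hx
    apply Real.rpow_le_rpow_of_exponent_le hnr1
    linarith
  have hncard : ∀ (B : SimpleGraph (Fin n)) (v : Fin n),
      (B.neighborSet v).ncard = Pool.Agent.H162R2.Sparse.dg B v := by
    intro B v
    unfold Pool.Agent.H162R2.Sparse.dg
    rw [Set.ncard_eq_toFinset_card']
    congr 1
    ext w
    rw [Set.mem_toFinset, Pool.Agent.H162R2.Sparse.mem_nb, SimpleGraph.mem_neighborSet]
  have hp1 : p ≤ 1 := by linarith
  have h2 : ∀ B : SimpleGraph (Fin n), (∃ v, (n : ℝ) ^ (1 - δ) ≤ (B.neighborSet v).ncard) →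
      1 - (n : ℝ) ^ (-δ) ≤ prob (B.edgeSet.indicator fun _ => p) (fun G => ListEdge G) := by
    rintro B ⟨v, hv1⟩
    have hqq : (B.edgeSet.indicator fun _ => p) = Pool.Agent.W2helper87.FR.qB B p := by
      funext e
      unfold Pool.Agent.W2helper87.FR.qB
      by_cases he : e ∈ B.edgeSet
      · rw [Set.indicator_of_mem he, if_pos he]
      · rw [Set.indicator_of_notMem he, if_neg he]
    have hq01 := Pool.Agent.W2helper87.FR.qB_01 B p hp0 hp1
    rw [hqq]
    rcases le_or_gt p ((n : ℝ) ^ (c - 1)) with hp | hp
    · have h3 := h1 n (le_trans (le_max_left _ _) hn) (Pool.Agent.W2helper87.FR.qB B p)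
        (fun e => ⟨(hq01 e).1, (Pool.Agent.W2helper87.FR.qB_le B p hp0 e).trans hp⟩)
      have := hle c hδc
      linarith
    · refine le_trans ?_ (hpb n hn1 _ hq01)
      have h3 := hdense n (le_trans (le_max_left _ _) (le_trans (le_max_right _ _) hn)) B p hp.le
        (by linarith) ⟨v, by
          rw [← hncard]
          refine le_trans ?_ hv1
          apply Real.rpow_le_rpow_of_exponent_le hnr1
          linarith⟩
      have := hle (1 / 40) (hδc₁.trans hc₁1)
      linarith
  refine ⟨?_, h2⟩
  have htop : (((⊤ : SimpleGraph (Fin n)).neighborSet ⟨0, hn1⟩).ncard : ℝ) = n - 1 := by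
    have h3 : ((⊤ : SimpleGraph (Fin n)).neighborSet ⟨0, hn1⟩).ncard = n - 1 := by
      rw [Set.ncard_eq_toFinset_card']
      simp [Finset.card_compl]
    rw [h3, Nat.cast_sub hn1]
    norm_num
  have h3 := h2 ⊤ ⟨⟨0, hn1⟩, by
      rw [htop]
      have e1 : (n : ℝ) ^ (1 - δ) * 2 ≤ n := by
        calc (n : ℝ) ^ (1 - δ) * 2 ≤ (n : ℝ) ^ (1 - δ) * (n : ℝ) ^ δ := by gcongr
          _ = n := by
              rw [← Real.rpow_add hn0]
              simp
      linarith⟩
  refine h3.trans (le_of_eq ?_)
  unfold prob
  apply Finset.sum_congr rfl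
  intro G _
  congr 1
  apply Finset.prod_congr rfl
  intro e _
  rw [Set.indicator_of_mem (show e.1 ∈ (⊤ : SimpleGraph (Fin n)).edgeSet by
    rw [SimpleGraph.edgeSet_top]
    exact e.2)]

end Pool.Agent.Results.MP_2f9829_co.RandomGraphsAllDensities
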